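import Pool.Agent.Lib.MP_81308f_co.Full.All

/-!
# MP_81308f_co

Every lattice polytope in dimension `n` all of whose edges have lattice length at least `n - 1` is
integrally closed.
-/

namespace Pool.Agent.Results.MP_81308f_co.IntegrallyClosed

open MP81308f

theorem result (n : ℕ) (P : Set (Fin n → ℝ)) (hP : IsLatticePolytope P)
    (hL : n - 1 ≤ latticeLength P) : IsIntegrallyClosed P :=
  all_main P hP hL

end Pool.Agent.Results.MP_81308f_co.IntegrallyClosed
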